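import Mathlib

/-!
Core combinatorics for MP_f6c4b6_nt: an expansion bound for independent sets of the
Cayley graph on a product of odd cyclic groups whose generators have all coordinates in {0,1,-1}
and an odd number of nonzero coordinates.
-/

namespace Pool.Agent.H11.ChromCore

open Finset

/-- Expansion of a finite set under one translation. -/
lemma expand_aux {G : Type*} [AddCommGroup G] [DecidableEq G] (U : Finset G) (g : G) (p : ℕ)
    (h : ∀ u ∈ U, u + p • g ∉ U) :
    U.card ≤ p * ((U.image (· + g)) \ U).card := by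
  classical
  -- for each u, the first i ≥ 1 with u + i g ∉ U
  have hex : ∀ u ∈ U, ∃ i, u + i • g ∉ U := fun u hu => ⟨p, h u hu⟩
  let φ : G → ℕ := fun u => if hu : ∃ i, u + i • g ∉ U then Nat.find hu else 0
  have hφ : ∀ u ∈ U, u + φ u • g ∉ U ∧ 1 ≤ φ u ∧ φ u ≤ p ∧ u + (φ u - 1) • g ∈ U := by
    intro u hu
    have hu' := hex u hu
    have e : φ u = Nat.find hu' := by simp only [φ]; rw [dif_pos hu']
    rw [e]
    have h1 := Nat.find_spec hu'
    have h2 : Nat.find hu' ≤ p := Nat.find_min' hu' (h u hu)
    have h3 : 1 ≤ Nat.find hu' := by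
      by_contra hlt
      have : Nat.find hu' = 0 := by omega
      rw [this] at h1
      simp [hu] at h1
    refine ⟨h1, h3, h2, ?_⟩
    have := Nat.find_min hu' (m := Nat.find hu' - 1) (by omega)
    simpa using this
  have hcard : U.card ≤ (((U.image (· + g)) \ U) ×ˢ (Finset.Icc 1 p)).card := by
    apply Finset.card_le_card_of_injOn (fun u => (u + φ u • g, φ u))
    · intro u hu
      obtain ⟨h1, h2, h3, h4⟩ := hφ u hu
      simp only [Finset.coe_product, Set.mem_prod, Finset.mem_coe, Finset.mem_sdiff,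
        Finset.mem_image, Finset.mem_Icc]
      refine ⟨⟨⟨_, h4, ?_⟩, h1⟩, h2, h3⟩
      rw [add_assoc, ← succ_nsmul]
      congr 2
      omega
    · intro u hu v hv huv
      simp only [Prod.mk.injEq] at huv
      obtain ⟨h1, h2⟩ := huv
      rw [h2] at h1
      exact add_right_cancel h1
  rw [Finset.card_product] at hcard
  simp only [Nat.card_Icc, Nat.add_sub_cancel] at hcard
  rw [mul_comm]
  exact hcard

lemma expand {G : Type*} [AddCommGroup G] [DecidableEq G] (U : Finset G) (g : G) (p : ℕ)
    (h : ∀ u ∈ U, u + p • g ∉ U) :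
    (p + 1) * U.card ≤ p * (U ∪ U.image (· + g)).card := by
  have h1 := expand_aux U g p h
  have h2 : (U ∪ U.image (· + g)).card = U.card + ((U.image (· + g)) \ U).card := by
    rw [← Finset.union_sdiff_self_eq_union, Finset.card_union_of_disjoint
      Finset.disjoint_sdiff]
  rw [h2]
  nlinarith

variable {ι : Type*} [Fintype ι] [DecidableEq ι] (n : ι → ℕ)

/-- The connection set: all coordinates in `{0, 1, -1}`, an odd number of them nonzero. -/
def T : Set (∀ i, ZMod (n i)) :=
  {t | (∀ i, t i = 0 ∨ t i = 1 ∨ t i = -1) ∧ Odd (Finset.univ.filter (fun i => t i ≠ 0)).card}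

/-- indicator vector -/
def ind (S : Finset ι) : ∀ i, ZMod (n i) := fun i => if i ∈ S then 1 else 0

lemma ind_sub_mem_T (hn : ∀ i, 1 < n i) (S S' : Finset ι) (hodd : Odd (S.card + S'.card)) :
    ind n S - ind n S' ∈ T n := by
  constructor
  · intro i
    simp only [ind, Pi.sub_apply]
    by_cases h1 : i ∈ S <;> by_cases h2 : i ∈ S' <;> simp [h1, h2]
  · have : (Finset.univ.filter (fun i => (ind n S - ind n S') i ≠ 0)) = symmDiff S S' := by
      ext i
      haveI : Fact (1 < n i) := ⟨hn i⟩
      rw [Finset.mem_symmDiff, Finset.mem_filter]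
      simp only [ind, Pi.sub_apply, Finset.mem_univ, true_and]
      by_cases h1 : i ∈ S <;> by_cases h2 : i ∈ S' <;> simp [h1, h2]
    rw [this]
    have hc : (symmDiff S S').card + 2 * (S ∩ S').card = S.card + S'.card := by
      have e1 : (symmDiff S S').card = (S \ S').card + (S' \ S).card := by
        rw [symmDiff_def, Finset.sup_eq_union, Finset.card_union_of_disjoint]
        exact disjoint_sdiff_sdiff
      have e2 := Finset.card_sdiff_add_card_inter S S'
      have e3 := Finset.card_sdiff_add_card_inter S' S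
      rw [Finset.inter_comm] at e3
      omega
    rw [Nat.odd_iff] at hodd ⊢
    omega

/-- `A × {0}` plus the cube over `S`. -/
def U (A : Finset (∀ i, ZMod (n i))) (S : Finset ι) : Finset ((∀ i, ZMod (n i)) × ZMod 2) :=
  (A ×ˢ S.powerset).image (fun x => (x.1 + ind n x.2, (x.2.card : ZMod 2)))

lemma mem_U {A : Finset (∀ i, ZMod (n i))} {S : Finset ι} {y : (∀ i, ZMod (n i)) × ZMod 2} :
    y ∈ U n A S ↔ ∃ a ∈ A, ∃ S' ⊆ S, y = (a + ind n S', (S'.card : ZMod 2)) := by
  simp only [U, Finset.mem_image, Finset.mem_product, Finset.mem_powerset, Prod.exists]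
  constructor
  · rintro ⟨a, S', ⟨ha, hS⟩, rfl⟩
    exact ⟨a, ha, S', hS, rfl⟩
  · rintro ⟨a, ha, S', hS, rfl⟩
    exact ⟨a, S', ⟨ha, hS⟩, rfl⟩

lemma U_no_flip (hn : ∀ i, 1 < n i) {A : Finset (∀ i, ZMod (n i))}
    (hA : ∀ a ∈ A, ∀ b ∈ A, a - b ∉ T n) (S : Finset ι) :
    ∀ u ∈ U n A S, u + (0, 1) ∉ U n A S := by
  intro u hu hu'
  rw [mem_U] at hu hu'
  obtain ⟨a, ha, S1, hS1, rfl⟩ := hu
  obtain ⟨b, hb, S2, hS2, hab⟩ := hu'
  simp only [Prod.mk_add_mk, add_zero, Prod.mk.injEq] at hab
  obtain ⟨h1, h2⟩ := hab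
  apply hA a ha b hb
  have : a - b = ind n S2 - ind n S1 := by
    rw [sub_eq_sub_iff_add_eq_add]
    rw [h1]; abel
  rw [this]
  apply ind_sub_mem_T n hn
  have h3 : ((S1.card + 1 : ℕ) : ZMod 2) = ((S2.card : ℕ) : ZMod 2) := by
    push_cast; exact h2
  rw [ZMod.natCast_eq_natCast_iff'] at h3
  rw [Nat.odd_iff]
  omega

lemma U_insert {A : Finset (∀ i, ZMod (n i))} {S : Finset ι} {i : ι} (hi : i ∉ S) :
    U n A (insert i S) = U n A S ∪ (U n A S).image (· + ((Pi.single i 1, 1))) := by
  have key : ∀ S' : Finset ι, i ∉ S' → ind n (insert i S') = ind n S' + Pi.single i 1 := by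
    intro S' hS'
    ext j
    simp only [ind, Pi.add_apply, Finset.mem_insert]
    by_cases hj : j = i
    · subst hj
      simp [hS']
    · simp [hj, Pi.single_eq_of_ne hj]
  ext y
  rw [Finset.mem_union, Finset.mem_image, mem_U, mem_U]
  constructor
  · rintro ⟨a, ha, S', hS', rfl⟩
    by_cases hiS : i ∈ S'
    · right
      refine ⟨(a + ind n (S'.erase i), ((S'.erase i).card : ZMod 2)), ?_, ?_⟩
      · rw [mem_U]
        refine ⟨a, ha, S'.erase i, ?_, rfl⟩
        intro j hj
        rw [Finset.mem_erase] at hj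
        have := hS' hj.2
        rw [Finset.mem_insert] at this
        tauto
      · have h1 : S' = insert i (S'.erase i) := (Finset.insert_erase hiS).symm
        have h2 : ind n S' = ind n (S'.erase i) + Pi.single i 1 := by
          conv_lhs => rw [h1]
          exact key _ (Finset.notMem_erase i S')
        rw [h2]
        have h3 : (S'.card : ZMod 2) = ((S'.erase i).card : ZMod 2) + 1 := by
          rw [← Finset.card_erase_add_one hiS]
          push_cast; rfl
        rw [h3]
        simp [add_assoc]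
    · left
      refine ⟨a, ha, S', ?_, rfl⟩
      intro j hj
      have := hS' hj
      rw [Finset.mem_insert] at this
      rcases this with rfl | h
      · exact absurd hj hiS
      · exact h
  · rintro (⟨a, ha, S', hS', rfl⟩ | ⟨y', hy', rfl⟩)
    · exact ⟨a, ha, S', hS'.trans (Finset.subset_insert _ _), rfl⟩
    · rw [mem_U] at hy'
      obtain ⟨a, ha, S', hS', rfl⟩ := hy'
      have hiS : i ∉ S' := fun h => hi (hS' h)
      refine ⟨a, ha, insert i S', Finset.insert_subset_insert i hS', ?_⟩
      rw [key S' hiS, Finset.card_insert_of_notMem hiS]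
      simp [add_assoc]

lemma card_U_ge (hn : ∀ i, 1 < n i) (hodd : ∀ i, Odd (n i)) {A : Finset (∀ i, ZMod (n i))}
    (hA : ∀ a ∈ A, ∀ b ∈ A, a - b ∉ T n) (S : Finset ι) :
    (∏ i ∈ S, (n i + 1)) * A.card ≤ (∏ i ∈ S, n i) * (U n A S).card := by
  induction S using Finset.induction_on with
  | empty =>
    simp only [Finset.prod_empty, one_mul]
    apply Finset.card_le_card_of_injOn (fun a => (a, 0))
    · intro a ha
      simp only [Finset.mem_coe]
      rw [mem_U]
      refine ⟨a, ha, ∅, Finset.Subset.refl _, ?_⟩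
      simp only [Finset.card_empty, Nat.cast_zero, Prod.mk.injEq, and_true]
      ext i
      simp [ind]
    · intro a _ b _ hab
      simpa using hab
  | insert i S hi ih =>
    rw [Finset.prod_insert hi, Finset.prod_insert hi, U_insert n hi]
    have hflip := U_no_flip n hn hA S
    have hg : n i • ((Pi.single i 1 : ∀ i, ZMod (n i)), (1 : ZMod 2)) = (0, 1) := by
      ext j
      · simp only [Prod.smul_fst, Pi.smul_apply, Pi.zero_apply]
        by_cases hj : j = i
        · subst hj
          simp
        · simp [Pi.single_eq_of_ne hj]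
      · have : ((n i : ℕ) : ZMod 2) = 1 := by
          rw [ZMod.natCast_eq_one_iff_odd]; exact hodd i
        show n i • (1 : ZMod 2) = 1
        rw [nsmul_eq_mul, mul_one, this]
    have hexp := expand (U n A S) ((Pi.single i 1 : ∀ i, ZMod (n i)), (1 : ZMod 2)) (n i)
      (by rw [hg]; exact hflip)
    calc (n i + 1) * (∏ x ∈ S, (n x + 1)) * A.card
        = (n i + 1) * ((∏ x ∈ S, (n x + 1)) * A.card) := by ring
      _ ≤ (n i + 1) * ((∏ x ∈ S, n x) * (U n A S).card) := Nat.mul_le_mul_left _ ih
      _ = (∏ x ∈ S, n x) * ((n i + 1) * (U n A S).card) := by ring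
      _ ≤ (∏ x ∈ S, n x) * (n i * _) := Nat.mul_le_mul_left _ hexp
      _ = _ := by ring

/-- Independent sets are small. -/
theorem indep_bound [∀ i, NeZero (n i)] (hn : ∀ i, 1 < n i) (hodd : ∀ i, Odd (n i))
    {A : Finset (∀ i, ZMod (n i))} (hA : ∀ a ∈ A, ∀ b ∈ A, a - b ∉ T n) :
    (∏ i, (n i + 1)) * A.card ≤ (∏ i, n i) * (∏ i, n i) := by
  refine (card_U_ge n hn hodd hA Finset.univ).trans (Nat.mul_le_mul_left _ ?_)
  have h1 : (U n A Finset.univ).card ≤ (Finset.univ : Finset (∀ i, ZMod (n i))).card := by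
    apply Finset.card_le_card_of_injOn Prod.fst
    · intro x _
      simp
    · intro x hx y hy hxy
      by_contra hne
      have h2 : y = x + (0, 1) := by
        ext1
        · simpa using hxy.symm
        · have : x.2 ≠ y.2 := fun h => hne (Prod.ext hxy h)
          simp only [Prod.snd_add]
          generalize x.2 = u at *
          generalize y.2 = v at *
          revert this
          revert u v
          decide
      rw [h2] at hy
      exact U_no_flip n hn hA Finset.univ x hx hy
  rw [Finset.card_univ, Fintype.card_pi] at h1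
  simpa [ZMod.card] using h1

end Pool.Agent.H11.ChromCore
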